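import Pool.Agent.W225.TD2.Cub
import Pool.Agent.W130.TD2_REM
import Pool.Agent.W962.TD2_KR
import Pool.Agent.W197.TD2_ALPHA
import Pool.Agent.W689.TD2_SPARSE
import Pool.Agent.W997.TD2_UB

/-!
# The minimum 2-density of a graph with `3 (r - 1)` vertices and no independent set of size `r`
-/

set_option autoImplicit false

open Finset

namespace Pool.Agent.Results.MP_303581_co.RatioThree

open Pool.Agent.W225.TD2

/-- `d_2` of the subgraph of `G` induced by `S`: the number of its edges minus one, divided by the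
number of its vertices minus two. -/
noncomputable def dens {m : ℕ} (G : SimpleGraph (Fin m)) (S : Finset (Fin m)) : ℝ :=
  ((arcs G S : ℝ) / 2 - 1) / ((S.card : ℝ) - 2)

/-- `x` is the 2-density of `G`. -/
def IsTwoDensity {m : ℕ} (G : SimpleGraph (Fin m)) (x : ℝ) : Prop :=
  IsGreatest {d : ℝ | ∃ S : Finset (Fin m), 3 ≤ S.card ∧ d = dens G S} x

theorem ind_of {k m : ℕ} (G : SimpleGraph (Fin m)) (h : Gᶜ.CliqueFree (k + 1)) :
    Ind G univ k := by
  intro I _ hI
  by_contra hcard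
  obtain ⟨t, ht, htc⟩ := exists_subset_card_eq (s := I) (n := k + 1) (by omega)
  refine h t ⟨?_, htc⟩
  intro u hu v hv huv
  rw [SimpleGraph.compl_adj]
  exact ⟨huv, hI u (ht hu) v (ht hv)⟩

theorem lower (k : ℕ) (hk : 4 ≤ k) (G : SimpleGraph (Fin (3 * k))) (h : Gᶜ.CliqueFree (k + 1)) :
    ∃ S : Finset (Fin (3 * k)), 3 ≤ S.card ∧ (5 * (k : ℝ) - 1) / (3 * k - 2) ≤ dens G S := by
  classical
  have hk' : (4 : ℝ) ≤ k := by exact_mod_cast hk
  by_cases hT : G.CliqueFree 3
  · refine ⟨univ, by rw [card_univ, Fintype.card_fin]; omega, ?_⟩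
    have h1 := Pool.Agent.W962.TD2KR.kr Pool.Agent.W130.TD2REM.rem_t
      (cub Pool.Agent.W130.TD2REM.rem_t) (3 * k) G univ k hT (ind_of G h)
    unfold sl at h1
    rw [card_univ, Fintype.card_fin] at h1
    push_cast at h1
    have h2 : (10 * (k : ℤ)) ≤ (arcs G univ : ℤ) := by linarith
    have h3 : (10 * (k : ℝ)) ≤ (arcs G univ : ℝ) := by exact_mod_cast h2
    unfold dens
    rw [card_univ, Fintype.card_fin]
    push_cast
    refine div_le_div_of_nonneg_right ?_ (by linarith)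
    linarith
  · unfold SimpleGraph.CliqueFree at hT
    push Not at hT
    obtain ⟨t, ht⟩ := hT
    refine ⟨t, ht.card_eq.ge, ?_⟩
    have h1 : 6 ≤ arcs G t := by
      have h2 : t.offDiag ⊆ univ.filter (fun p : Fin (3 * k) × Fin (3 * k) =>
          p.1 ∈ t ∧ p.2 ∈ t ∧ G.Adj p.1 p.2) := by
        intro p hp
        rw [mem_offDiag] at hp
        rw [mem_filter]
        exact ⟨mem_univ _, hp.1, hp.2.1, ht.isClique hp.1 hp.2.1 hp.2.2⟩
      have h3 := card_le_card h2
      rw [offDiag_card, ht.card_eq] at h3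
      unfold arcs
      convert h3 using 2
    have h2 : (6 : ℝ) ≤ (arcs G t : ℝ) := by exact_mod_cast h1
    unfold dens
    rw [ht.card_eq]
    push_cast
    rw [div_le_div_iff₀ (by linarith) (by norm_num)]
    nlinarith

theorem main (k : ℕ) (hk : 4 ≤ k) :
    IsLeast {x : ℝ | ∃ G : SimpleGraph (Fin (3 * k)), Gᶜ.CliqueFree (k + 1) ∧ IsTwoDensity G x}
      ((5 * (k : ℝ) - 1) / (3 * k - 2)) := by
  have hk' : (4 : ℝ) ≤ k := by exact_mod_cast hk
  constructor
  · obtain ⟨G, hG, hS⟩ := Pool.Agent.W997.TD2UB.ub Pool.Agent.W197.TD2A.alpha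
      Pool.Agent.W689.TD2.sparse k hk
    have hle : ∀ S : Finset (Fin (3 * k)), 3 ≤ S.card →
        dens G S ≤ (5 * (k : ℝ) - 1) / (3 * k - 2) := by
      intro S hS3
      have h3 : (3 : ℝ) ≤ (S.card : ℝ) := by exact_mod_cast hS3
      unfold dens
      rw [div_le_div_iff₀ (by linarith) (by linarith)]
      exact hS S hS3
    refine ⟨G, hG, ?_, ?_⟩
    · obtain ⟨S, h1, h2⟩ := lower k hk G hG
      exact ⟨S, h1, le_antisymm h2 (hle S h1)⟩
    · rintro d ⟨S, h1, rfl⟩
      exact hle S h1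
  · rintro x ⟨G, hG, hx⟩
    obtain ⟨S, h1, h2⟩ := lower k hk G hG
    exact h2.trans (hx.2 ⟨S, h1, rfl⟩)

/-- For every `r ≥ 5`, the least 2-density of a graph with `3 (r - 1)` vertices and no
independent set of size `r` is `(5 r - 6) / (3 r - 5)`. -/
theorem result (r : ℕ) (hr : 5 ≤ r) :
    IsLeast {x : ℝ | ∃ G : SimpleGraph (Fin (3 * (r - 1))), Gᶜ.CliqueFree r ∧ IsTwoDensity G x}
      ((5 * (r : ℝ) - 6) / (3 * r - 5)) := by
  obtain ⟨k, rfl⟩ : ∃ k, r = k + 1 := ⟨r - 1, by omega⟩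
  have e : (5 * ((k + 1 : ℕ) : ℝ) - 6) / (3 * ((k + 1 : ℕ) : ℝ) - 5) =
      (5 * (k : ℝ) - 1) / (3 * k - 2) := by
    push_cast
    congr 1 <;> ring
  rw [e]
  exact main k (by omega)

end Pool.Agent.Results.MP_303581_co.RatioThree
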